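import Pool.Agent.R751.MB.Stm

/-!
# Project KM (helper483), FRM: frames of Hermitian matrices exist

By helper814.
-/

set_option autoImplicit false

namespace Pool.Agent.N814.KM

open Finset
open Pool.Agent.R751.MB (Eu Frame)

section

variable (𝕜 : Type) [RCLike 𝕜] (D : ℕ)

/-- Hermitian matrices -/
abbrev HM := selfAdjoint (Matrix (Fin D) (Fin D) 𝕜)

/-- real and imaginary parts of the entries -/
noncomputable def Jm : HM 𝕜 D →ₗ[ℝ] EuclideanSpace ℝ (Fin D × Fin D × Fin 2) where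
  toFun A := WithLp.toLp 2 fun p =>
    if p.2.2 = 0 then RCLike.re (A.1 p.1 p.2.1) else RCLike.im (A.1 p.1 p.2.1)
  map_add' A B := by
    ext p
    simp only [PiLp.add_apply]
    split_ifs <;> simp
  map_smul' c A := by
    ext p
    simp only [PiLp.smul_apply, RingHom.id_apply]
    split_ifs <;> simp [RCLike.smul_re, RCLike.smul_im]

theorem Jm_norm (A : HM 𝕜 D) : ‖Jm 𝕜 D A‖ ^ 2 = ∑ i, ∑ j, ‖A.1 i j‖ ^ 2 := by
  rw [EuclideanSpace.norm_sq_eq, Fintype.sum_prod_type]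
  refine sum_congr rfl fun i _ => ?_
  rw [Fintype.sum_prod_type]
  refine sum_congr rfl fun j _ => ?_
  have h : ‖A.1 i j‖ ^ 2 = RCLike.re (A.1 i j) ^ 2 + RCLike.im (A.1 i j) ^ 2 := by
    rw [pow_two, pow_two, pow_two]
    have := RCLike.norm_sq_eq_def (z := A.1 i j)
    rw [pow_two] at this
    exact this
  rw [Fin.sum_univ_two, h]
  simp [Jm]

theorem Jm_inj : Function.Injective (Jm 𝕜 D) := by
  rw [injective_iff_map_eq_zero]
  intro A hA
  have h := Jm_norm 𝕜 D A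
  rw [hA, norm_zero, zero_pow two_ne_zero] at h
  have h1 := (sum_eq_zero_iff_of_nonneg (fun i _ => sum_nonneg fun j _ => sq_nonneg _)).1 h.symm
  ext i j
  have h2 := (sum_eq_zero_iff_of_nonneg (fun j _ => sq_nonneg _)).1 (h1 i (mem_univ _)) j (mem_univ _)
  rw [pow_eq_zero_iff two_ne_zero, norm_eq_zero] at h2
  exact h2

/-- frames exist -/
theorem frm : ∃ (N : ℕ) (Φ : Eu (Fin N) →ₗ[ℝ] Matrix (Fin D) (Fin D) 𝕜), Frame Φ ∧
    N = Module.finrank ℝ (selfAdjoint (Matrix (Fin D) (Fin D) 𝕜)) := by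
  obtain ⟨V, hV⟩ : ∃ V, V = LinearMap.range (Jm 𝕜 D) := ⟨_, rfl⟩
  obtain ⟨e, he⟩ : ∃ e : HM 𝕜 D ≃ₗ[ℝ] LinearMap.range (Jm 𝕜 D), ∀ A, (e A : Eu _) = Jm 𝕜 D A :=
    ⟨LinearEquiv.ofInjective (Jm 𝕜 D) (Jm_inj 𝕜 D), fun A => rfl⟩
  have b := stdOrthonormalBasis ℝ (LinearMap.range (Jm 𝕜 D))
  refine ⟨Module.finrank ℝ (LinearMap.range (Jm 𝕜 D)),
    { toFun := fun x => ((e.symm (b.repr.symm x) : HM 𝕜 D) : Matrix (Fin D) (Fin D) 𝕜)
      map_add' := fun x y => by rw [map_add, map_add]; rfl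
      map_smul' := fun c x => by rw [map_smul, map_smul]; rfl }, ?_, e.finrank_eq.symm⟩
  refine ⟨fun x => ?_, fun A hA => ?_, fun x => ?_⟩
  · exact (e.symm (b.repr.symm x)).2
  · refine ⟨b.repr (e ⟨A, hA⟩), ?_⟩
    show ((e.symm (b.repr.symm (b.repr (e ⟨A, hA⟩))) : HM 𝕜 D) : Matrix (Fin D) (Fin D) 𝕜) = A
    rw [LinearIsometryEquiv.symm_apply_apply, LinearEquiv.symm_apply_apply]
  · have h1 := Jm_norm 𝕜 D (e.symm (b.repr.symm x))
    rw [← he, LinearEquiv.apply_symm_apply] at h1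
    have h2 : ‖((b.repr.symm x : LinearMap.range (Jm 𝕜 D)) :
        EuclideanSpace ℝ (Fin D × Fin D × Fin 2))‖ = ‖x‖ := b.repr.symm.norm_map x
    rw [h2] at h1
    exact h1.symm

end

end Pool.Agent.N814.KM
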