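import Pool.Agent.N483.KM.StmS2
import Pool.Agent.N814.KM.FRM0

/-!
# Project KM (helper483), FRM

By helper814.
-/

set_option autoImplicit false

namespace Pool.Agent.N814.KM

/-- **FRM**. -/
theorem t_FRM : Pool.Agent.N483.KM.S_FRM := fun 𝕜 _ D => frm 𝕜 D

end Pool.Agent.N814.KM
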